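import Pool.Agent.helper37.NE.SpecA
set_option autoImplicit false
namespace Pool.Agent.NE
open Pool.Agent.helper58.DC Pool.Agent.DI Pool.Agent.GR Pool.Agent.OB Pool.Agent.DR Pool.Agent.FI Pool.Agent.FI3 Pool.Agent.FI4 Pool.Agent.FI4I Pool.Agent.LE Pool.Agent.L5 Pool.Agent.NAB Pool.Agent.ND

theorem YPT_le (I α β : Type) (S : Set α) (T : Set β) (Fa : I → Set α) (Fb : I → Set β) (R : I → I → Prop)
    (hR : Equivalence R) (hS : S.Finite) (hT : T.Finite) (h1 : ∀ i, Fa i ⊆ S ∧ Fb i ⊆ T)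
    (h2 : ∀ a ∈ S, ∃ i, a ∈ Fa i)
    (h5 : ∀ i j b, b ∈ Fb i → b ∈ Fb j → R i j)
    (h6 : ∀ i j, R i j → Fa i = Fa j ∧ Fb i = Fb j) (h7 : ∀ i, (Fa i).ncard = (Fb i).ncard)
    (P : α → Prop) (Q : β → Prop) (h8 : ∀ i, ∀ a ∈ Fa i, ∀ b ∈ Fb i, (P a ↔ Q b)) :
    {a | a ∈ S ∧ P a}.ncard ≤ {b | b ∈ T ∧ Q b}.ncard := by
  classical
  have hTf : {b | b ∈ T ∧ Q b}.Finite := hT.subset (fun b hb => hb.1)
  by_cases hne : ∃ a, a ∈ S ∧ P a
  · obtain ⟨a₀, ha₀, -⟩ := hne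
    have hfa : ∀ i, (Fa i).Finite := fun i => hS.subset (h1 i).1
    have hfb : ∀ i, (Fb i).Finite := fun i => hT.subset (h1 i).2
    have hβ : Nonempty β := by
      obtain ⟨i, hi⟩ := h2 a₀ ha₀
      have h : 0 < (Fa i).ncard := (Set.ncard_pos (hfa i)).2 ⟨a₀, hi⟩
      rw [h7 i] at h
      obtain ⟨b, -⟩ := (Set.ncard_pos (hfb i)).1 h
      exact ⟨b⟩
    have hα : Nonempty α := ⟨a₀⟩
    have hI : Nonempty I := by
      obtain ⟨i, -⟩ := h2 a₀ ha₀
      exact ⟨i⟩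
    have hg : ∀ i, ∃ g : α → β, (∀ a ∈ Fa i, g a ∈ Fb i) ∧ Set.InjOn g (Fa i) := by
      intro i
      obtain ⟨g, hg1, hg2⟩ := Set.Finite.exists_injOn_of_encard_le (s := Fa i) (t := Fb i) (hfa i) (by
        rw [← (hfa i).cast_ncard_eq, ← (hfb i).cast_ncard_eq, h7 i])
      exact ⟨g, fun a ha => hg1 ha, hg2⟩
    choose g hg1 hg2 using hg
    have hix : ∀ a, ∃ i, a ∈ S → a ∈ Fa i := by
      intro a
      by_cases ha : a ∈ S
      · obtain ⟨i, hi⟩ := h2 a ha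
        exact ⟨i, fun _ => hi⟩
      · exact ⟨Classical.choice hI, fun h => absurd h ha⟩
    choose ix hix using hix
    let st : Setoid I := ⟨R, hR⟩
    have hrep : ∀ i, R (Quotient.mk st i).out i := fun i => Quotient.exact (s := st) (Quotient.out_eq (s := st) (Quotient.mk st i))
    set rep : I → I := fun i => (Quotient.mk st i).out with hrepd
    have hrep2 : ∀ i j, R (rep i) (rep j) → rep i = rep j := by
      intro i j hij
      have h : R i j := hR.trans (hR.trans (hR.symm (hrep i)) hij) (hrep j)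
      have h' : Quotient.mk st i = Quotient.mk st j := Quotient.sound (s := st) h
      rw [hrepd]
      simp only
      rw [h']
    have hmem : ∀ a ∈ S, a ∈ Fa (rep (ix a)) := by
      intro a ha
      rw [(h6 _ _ (hrep (ix a))).1]
      exact hix a ha
    refine Set.ncard_le_ncard_of_injOn (fun a => g (rep (ix a)) a) ?_ ?_ hTf
    · rintro a ⟨ha, hP⟩
      have hb := hg1 _ a (hmem a ha)
      exact ⟨(h1 _).2 hb, (h8 _ a (hmem a ha) _ hb).1 hP⟩
    · rintro a ⟨ha, -⟩ a' ⟨ha', -⟩ haa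
      simp only at haa
      have hb := hg1 _ a (hmem a ha)
      have hb' := hg1 _ a' (hmem a' ha')
      rw [← haa] at hb'
      have hr := hrep2 _ _ (h5 _ _ _ hb hb')
      have hm' := hmem a' ha'
      rw [← hr] at haa hm'
      exact hg2 _ (hmem a ha) hm' haa
  · have : {a | a ∈ S ∧ P a} = ∅ := by
      ext a
      simp only [Set.mem_setOf_eq, Set.mem_empty_iff_false, iff_false]
      exact fun h => hne ⟨a, h⟩
    rw [this, Set.ncard_empty]
    exact Nat.zero_le _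

theorem YPT : YPT_stmt := by
  intro I α β S T Fa Fb R hR hS hT h1 h2 h3 h4 h5 h6 h7 P Q h8
  refine le_antisymm (YPT_le I α β S T Fa Fb R hR hS hT h1 h2 h5 h6 h7 P Q h8) ?_
  exact YPT_le I β α T S Fb Fa R hR hT hS (fun i => ⟨(h1 i).2, (h1 i).1⟩) h3 h4
    (fun i j h => ⟨(h6 i j h).2, (h6 i j h).1⟩) (fun i => (h7 i).symm) Q P (fun i b hb a ha => (h8 i a ha b hb).symm)

end Pool.Agent.NE
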